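import Mathlib
import Pool.Agent.Helper830.DJ.Main

set_option autoImplicit false

namespace Pool.Agent.Results.MP_3adc02_co.SixOddVertices

/-- Let `D` be a finite digraph (parallel arcs allowed), `k ≥ 0`, and let `J` be a `2k`-dijoin of `D`.
Suppose that `k ≥ 2` and at most six vertices are incident with an odd number of arcs of `J`
(loops counted twice), or that at most four vertices are incident with an odd number of arcs of `J`.
Then `J` can be partitioned into two `k`-dijoins of `D`. -/
theorem result (k : ℕ) (n m : ℕ) (tail head : Fin m → Fin n) (J : Finset (Fin m))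
    (hodd : (2 ≤ k ∧ (Finset.univ.filter (fun v => Odd ((J.filter (fun e => tail e = v)).card +
        (J.filter (fun e => head e = v)).card))).card ≤ 6) ∨
      (Finset.univ.filter (fun v => Odd ((J.filter (fun e => tail e = v)).card +
        (J.filter (fun e => head e = v)).card))).card ≤ 4)
    (hJ : ∀ U : Finset (Fin n), U.Nonempty → U ≠ Finset.univ →
          (∀ e : Fin m, head e ∈ U → tail e ∈ U) →
          2 * k ≤ (J.filter (fun e => tail e ∈ U ∧ head e ∉ U)).card) :
    ∃ J₁ : Finset (Fin m), J₁ ⊆ J ∧
        (∀ U : Finset (Fin n), U.Nonempty → U ≠ Finset.univ →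
            (∀ e : Fin m, head e ∈ U → tail e ∈ U) →
            k ≤ (J₁.filter (fun e => tail e ∈ U ∧ head e ∉ U)).card) ∧
        (∀ U : Finset (Fin n), U.Nonempty → U ≠ Finset.univ →
            (∀ e : Fin m, head e ∈ U → tail e ∈ U) →
            k ≤ ((J \ J₁).filter (fun e => tail e ∈ U ∧ head e ∉ U)).card) :=
  Pool.Agent.Helper830.DJ.main k tail head J hodd hJ

end Pool.Agent.Results.MP_3adc02_co.SixOddVertices
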